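import Pool.Agent.Y246.LG.Stm

/-!
# Continuity and homogeneity of the iterated Turan operator
-/

set_option autoImplicit false

namespace Pool.Agent.Y908.LG

open Polynomial Pool.Agent.Y246.LG Finset Filter Topology

theorem LT_tendsto {ι : Type*} {l : Filter ι} (γ : ι → ℕ → ℝ) (γ' : ℕ → ℝ)
    (h : ∀ j, Tendsto (fun r => γ r j) l (𝓝 (γ' j))) (n k : ℕ) :
    Tendsto (fun r => LT n (γ r) k) l (𝓝 (LT n γ' k)) := by
  induction n generalizing k with
  | zero =>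
    simp only [Pool.Agent.Y246.LG.LT]
    exact ((h k).pow 2).sub ((h (k - 1)).mul (h (k + 1)))
  | succ n ih =>
    simp only [Pool.Agent.Y246.LG.LT]
    exact ((ih k).pow 2).sub ((ih (k - 1)).mul (ih (k + 1)))

theorem LT_hom (lam mu : ℝ) (γ : ℕ → ℝ) (n k : ℕ) (hk : n + 1 ≤ k) :
    LT n (fun j => lam * mu ^ j * γ j) k = lam ^ (2 ^ (n + 1)) * mu ^ (k * 2 ^ (n + 1)) * LT n γ k := by
  induction n generalizing k with
  | zero =>
    obtain ⟨m, rfl⟩ : ∃ m, k = m + 1 := ⟨k - 1, by omega⟩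
    simp only [Pool.Agent.Y246.LG.LT, Nat.add_sub_cancel]
    ring
  | succ n ih =>
    obtain ⟨m, rfl⟩ : ∃ m, k = m + 1 := ⟨k - 1, by omega⟩
    simp only [Pool.Agent.Y246.LG.LT, Nat.add_sub_cancel]
    rw [ih (m + 1) (by omega), ih m (by omega), ih (m + 1 + 1) (by omega)]
    have e1 : (2:ℕ) ^ (n + 1 + 1) = 2 ^ (n + 1) + 2 ^ (n + 1) := by rw [pow_succ]; ring
    rw [e1]
    generalize 2 ^ (n + 1) = s
    ring

end Pool.Agent.Y908.LG
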