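import Pool.Agent.Y908.LG.Calc

/-!
# Numerical facts, level 4
-/

set_option autoImplicit false
set_option linter.style.longLine false
set_option maxRecDepth 100000

namespace Pool.Agent.Y908.LG.NUM4

open Polynomial Pool.Agent.Y246.LG Pool.Agent.Y908.LG

def sP0 : List (List ℤ) := [[1], [60], [1770], [34220], [487635], [5461512], [50063860]]

def sP1 : List (List ℤ) := [[1], [69], [2310], [50150], [795615], [9850227], [99217468]]

def sL0 : List (List ℤ) := [[1, 1], [169, 69], [9210, 2310], [281150, 50150], [5810615, 795615], [89411727, 9850227], [1084240168, 99217468]]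

def sL1 : List (List ℤ) := [[10141, 282, 141], [1426080, 63960, 17880], [99920820, 5825640, 1124820], [4641355720, 318547440, 46791720], [160534472130, 12253600260, 1447628130]]

def sL2 : List (List ℤ) := [[7110095160, 7913180640, 810570960, 9980640, 2495160], [2582235832080, 2162017264320, 213892800480, 3549136320, 637768080], [432579556500840, 293997126771360, 28192637309040, 579320307360, 81053268840]]

def sL3 : List (List ℤ) := [[516578270494751917257600, 138821459258988202060800, 23879693963220179212800, 3538451925938278425600, 337792322973568032000, 24160992835366425600, 1771261443347212800, 18131002474060800, 2266375309257600]]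

theorem sr0 (v : ℝ) : Rep sL0 v (gv 100 9 0 60 v) := by
  have h0 := pow_rep v 60 sP0 (by decide +kernel)
  have h1 := lin_rep v (1 + 0 * v) 9 [1] (by norm_num [ev]) _ sP0 sP1 h0 (by decide +kernel)
    (by decide +kernel) (by decide +kernel)
  have h2 := lin_rep v (1 + v) 100 [1, 1] (by norm_num [ev]) _ sP1 sL0 h1 (by decide +kernel)
    (by decide +kernel) (by decide +kernel)
  have e : gv 100 9 0 60 v = (C ((100 : ℤ) : ℝ) * X + C (1 + v)) * ((C ((9 : ℤ) : ℝ) * X + C (1 + 0 * v)) * (X + 1) ^ 60) := by
    unfold gv; push_cast; ring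
  rw [e]; exact h2

theorem sr1 (v : ℝ) : Rep sL1 v (Lg^[1] (gv 100 9 0 60 v)) := by
  rw [Function.iterate_succ_apply']
  exact lg_rep _ _ sL0 sL1 (sr0 v) (by decide +kernel) (by decide +kernel)

theorem sr2 (v : ℝ) : Rep sL2 v (Lg^[2] (gv 100 9 0 60 v)) := by
  rw [Function.iterate_succ_apply']
  exact lg_rep _ _ sL1 sL2 (sr1 v) (by decide +kernel) (by decide +kernel)

theorem sr3 (v : ℝ) : Rep sL3 v (Lg^[3] (gv 100 9 0 60 v)) := by
  rw [Function.iterate_succ_apply']
  exact lg_rep _ _ sL2 sL3 (sr2 v) (by decide +kernel) (by decide +kernel)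

def aP0 : List (List ℤ) := [[1], [60], [1770], [34220], [487635], [5461512], [50063860], [386206920], [2558620845]]

def aP1 : List (List ℤ) := [[1], [69], [2310], [50150], [795615], [9850227], [99217468], [836781660], [6034483125]]

def aL0 : List (List ℤ) := [[1], [169], [9210], [281150], [5810615], [89411727], [1084240168], [10758528460], [89712649125]]

def aL1 : List (List ℤ) := [[10141], [1426080], [99920820], [4641355720], [160534472130], [4404845645784], [99785334295140]]

def aL2 : List (List ℤ) := [[7110095160], [2582235832080], [432579556500840], [45941483877849120], [3533705907716739000]]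

def aL3 : List (List ℤ) := [[516578270494751917257600], [274154929064809545304339200], [72750322149084540431242531200]]

def aL4 : List (List ℤ) := [[-1546056889517101100809055096105988490424217600000]]

theorem ar0 : Rep aL0 (0 : ℝ) (gv 100 9 0 60 (0 : ℝ)) := by
  have h0 := pow_rep (0 : ℝ) 60 aP0 (by decide +kernel)
  have h1 := lin_rep (0 : ℝ) (1 + 0 * (0 : ℝ)) 9 [1] (by norm_num [ev]) _ aP0 aP1 h0 (by decide +kernel)
    (by decide +kernel) (by decide +kernel)
  have h2 := lin_rep (0 : ℝ) (1 + (0 : ℝ)) 100 [1] (by norm_num [ev]) _ aP1 aL0 h1 (by decide +kernel)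
    (by decide +kernel) (by decide +kernel)
  have e : gv 100 9 0 60 (0 : ℝ) = (C ((100 : ℤ) : ℝ) * X + C (1 + (0 : ℝ))) * ((C ((9 : ℤ) : ℝ) * X + C (1 + 0 * (0 : ℝ))) * (X + 1) ^ 60) := by
    unfold gv; push_cast; ring
  rw [e]; exact h2

theorem ar1 : Rep aL1 (0 : ℝ) (Lg^[1] (gv 100 9 0 60 (0 : ℝ))) := by
  rw [Function.iterate_succ_apply']
  exact lg_rep _ _ aL0 aL1 (ar0) (by decide +kernel) (by decide +kernel)

theorem ar2 : Rep aL2 (0 : ℝ) (Lg^[2] (gv 100 9 0 60 (0 : ℝ))) := by
  rw [Function.iterate_succ_apply']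
  exact lg_rep _ _ aL1 aL2 (ar1) (by decide +kernel) (by decide +kernel)

theorem ar3 : Rep aL3 (0 : ℝ) (Lg^[3] (gv 100 9 0 60 (0 : ℝ))) := by
  rw [Function.iterate_succ_apply']
  exact lg_rep _ _ aL2 aL3 (ar2) (by decide +kernel) (by decide +kernel)

theorem ar4 : Rep aL4 (0 : ℝ) (Lg^[4] (gv 100 9 0 60 (0 : ℝ))) := by
  rw [Function.iterate_succ_apply']
  exact lg_rep _ _ aL3 aL4 (ar3) (by decide +kernel) (by decide +kernel)

def bP0 : List (List ℤ) := [[1], [60], [1770], [34220], [487635], [5461512], [50063860], [386206920], [2558620845]]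

def bP1 : List (List ℤ) := [[1], [69], [2310], [50150], [795615], [9850227], [99217468], [836781660], [6034483125]]

def bL0 : List (List ℤ) := [[2], [238], [11520], [331300], [6606230], [99261954], [1183457636], [11595310120], [95747132250]]

def bL1 : List (List ℤ) := [[10564], [1507920], [106871280], [5006694880], [174235700520], [4800930011136], [109048759506960]]

def bL2 : List (List ℤ) := [[15846322560], [4962332801280], [755429694157440], [75013078714897920], [5488648849925040000]]

def bL3 : List (List ℤ) := [[683181620617528641945600], [365298451547109462348595200], [97649244495784088212185907200]]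

def bL4 : List (List ℤ) := [[18620489301755755059109682690547325061195366400000]]

theorem br0 : Rep bL0 (1 : ℝ) (gv 100 9 0 60 (1 : ℝ)) := by
  have h0 := pow_rep (1 : ℝ) 60 bP0 (by decide +kernel)
  have h1 := lin_rep (1 : ℝ) (1 + 0 * (1 : ℝ)) 9 [1] (by norm_num [ev]) _ bP0 bP1 h0 (by decide +kernel)
    (by decide +kernel) (by decide +kernel)
  have h2 := lin_rep (1 : ℝ) (1 + (1 : ℝ)) 100 [2] (by norm_num [ev]) _ bP1 bL0 h1 (by decide +kernel)
    (by decide +kernel) (by decide +kernel)
  have e : gv 100 9 0 60 (1 : ℝ) = (C ((100 : ℤ) : ℝ) * X + C (1 + (1 : ℝ))) * ((C ((9 : ℤ) : ℝ) * X + C (1 + 0 * (1 : ℝ))) * (X + 1) ^ 60) := by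
    unfold gv; push_cast; ring
  rw [e]; exact h2

theorem br1 : Rep bL1 (1 : ℝ) (Lg^[1] (gv 100 9 0 60 (1 : ℝ))) := by
  rw [Function.iterate_succ_apply']
  exact lg_rep _ _ bL0 bL1 (br0) (by decide +kernel) (by decide +kernel)

theorem br2 : Rep bL2 (1 : ℝ) (Lg^[2] (gv 100 9 0 60 (1 : ℝ))) := by
  rw [Function.iterate_succ_apply']
  exact lg_rep _ _ bL1 bL2 (br1) (by decide +kernel) (by decide +kernel)

theorem br3 : Rep bL3 (1 : ℝ) (Lg^[3] (gv 100 9 0 60 (1 : ℝ))) := by
  rw [Function.iterate_succ_apply']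
  exact lg_rep _ _ bL2 bL3 (br2) (by decide +kernel) (by decide +kernel)

theorem br4 : Rep bL4 (1 : ℝ) (Lg^[4] (gv 100 9 0 60 (1 : ℝ))) := by
  rw [Function.iterate_succ_apply']
  exact lg_rep _ _ bL3 bL4 (br3) (by decide +kernel) (by decide +kernel)

theorem t : Pool.Agent.Y246.LG.S_NUM4 := by
  refine ⟨?_, ?_, ?_⟩
  · intro v hv _ i hi
    interval_cases i
    · exact ne_of_rep v hv _ sL0 (sr0 v) (by decide +kernel)
    · exact ne_of_rep v hv _ sL1 (sr1 v) (by decide +kernel)
    · exact ne_of_rep v hv _ sL2 (sr2 v) (by decide +kernel)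
    · exact ne_of_rep v hv _ sL3 (sr3 v) (by decide +kernel)
  · rw [ar4 0 (by decide +kernel)]
    norm_num [ev, aL4]
  · rw [br4 0 (by decide +kernel)]
    norm_num [ev, bL4]

end Pool.Agent.Y908.LG.NUM4
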