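import Pool.Agent.Y908.LG.Lim

/-!
# From sequences to polynomials
-/

set_option autoImplicit false

namespace Pool.Agent.Y908.LG.POLY

open Polynomial Pool.Agent.Y246.LG Finset Filter Topology

/-- approximating polynomial -/
noncomputable def PN (g : ℝ[X]) (h : ℝ) (N : ℕ) : ℝ[X] :=
  ((X + 1) ^ N).comp (C (1 / (N : ℝ)) * X) * g.comp (C h * X)

theorem neg (g : ℝ[X]) (hg : NegRoots g) (h : ℝ) (hh : 0 < h) (N : ℕ) (hN : 1 ≤ N) :
    NegRoots (PN g h N) := by
  have hN0 : (0:ℝ) < N := by exact_mod_cast hN
  refine ⟨?_, ?_⟩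
  · apply mul_ne_zero
    · rw [Ne, comp_C_mul_X_eq_zero_iff (mem_nonZeroDivisors_of_ne_zero (by positivity))]
      exact pow_ne_zero _ (X_add_C_ne_zero 1)
    · rw [Ne, comp_C_mul_X_eq_zero_iff (mem_nonZeroDivisors_of_ne_zero hh.ne')]
      exact hg.1
  · intro z hz
    unfold PN at hz
    rw [map_mul, mul_eq_zero, aeval_comp, aeval_comp] at hz
    rcases hz with hz | hz
    · have e : (aeval z) (C (1 / (N : ℝ)) * X) = ((1 / (N:ℝ) : ℝ) : ℂ) * z := by simp
      rw [e, map_pow] at hz
      have h1 : (aeval (((1 / (N:ℝ) : ℝ) : ℂ) * z)) ((X : ℝ[X]) + 1) = 0 :=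
        pow_eq_zero_iff (by omega) |>.mp hz
      rw [map_add, aeval_X, map_one] at h1
      have hre := congrArg Complex.re h1
      have him := congrArg Complex.im h1
      rw [Complex.add_re, Complex.mul_re, Complex.ofReal_re, Complex.ofReal_im, zero_mul, sub_zero,
        Complex.one_re, Complex.zero_re] at hre
      rw [Complex.add_im, Complex.mul_im, Complex.ofReal_re, Complex.ofReal_im, zero_mul, add_zero,
        Complex.one_im, Complex.zero_im, add_zero] at him
      have hpos : 0 < 1 / (N:ℝ) := by positivity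
      constructor
      · rcases mul_eq_zero.mp him with h2 | h2
        · exact absurd h2 hpos.ne'
        · exact h2
      · by_contra h2
        push Not at h2
        have := mul_nonneg hpos.le h2
        linarith
    · have e : (aeval z) (C h * X) = (h : ℂ) * z := by simp
      rw [e] at hz
      have h1 := hg.2 _ hz
      rw [Complex.mul_im, Complex.mul_re, Complex.ofReal_re, Complex.ofReal_im, zero_mul, add_zero,
        zero_mul, sub_zero] at h1
      constructor
      · rcases mul_eq_zero.mp h1.1 with h2 | h2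
        · exact absurd h2 hh.ne'
        · exact h2
      · by_contra h2
        push Not at h2
        have := mul_nonneg hh.le h2
        linarith [h1.2]

theorem coeffPN (g : ℝ[X]) (h : ℝ) (N j : ℕ) : (PN g h N).coeff j =
    ∑ i ∈ range (j + 1), ((N.choose (j - i) : ℝ) * (1 / (N:ℝ)) ^ (j - i)) * (g.coeff i * h ^ i) := by
  unfold PN
  rw [mul_comm, coeff_mul, Finset.Nat.sum_antidiagonal_eq_sum_range_succ
    (fun a b => (g.comp (C h * X)).coeff a * (((X + 1) ^ N).comp (C (1 / (N : ℝ)) * X)).coeff b) j]
  apply sum_congr rfl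
  intro i _
  rw [comp_C_mul_X_coeff, comp_C_mul_X_coeff, coeff_X_add_one_pow]
  ring

theorem lim (g : ℝ[X]) (h : ℝ) (j : ℕ) :
    Tendsto (fun N : ℕ => (j.factorial : ℝ) * (PN g h N).coeff j) atTop
      (𝓝 (∑ l ∈ Finset.range (g.natDegree + 1), (j.descFactorial l : ℝ) * h ^ l * g.coeff l)) := by
  have h1 : ∀ a : ℕ, Tendsto (fun N : ℕ => (N.choose a : ℝ) * (1 / (N:ℝ)) ^ a) atTop
      (𝓝 (1 / (a.factorial : ℝ))) := by
    intro a
    have := ProbabilityTheory.tendsto_choose_mul_pow_atTop (p := fun n : ℕ => 1 / (n:ℝ)) (r := 1) a (by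
      refine tendsto_const_nhds.congr' ?_
      filter_upwards [eventually_ge_atTop 1] with n hn
      have : (0:ℝ) < n := by exact_mod_cast hn
      field_simp)
    simpa using this
  have h2 : Tendsto (fun N : ℕ => (j.factorial : ℝ) * (PN g h N).coeff j) atTop
      (𝓝 ((j.factorial : ℝ) * ∑ i ∈ range (j + 1),
        (1 / ((j - i).factorial : ℝ)) * (g.coeff i * h ^ i))) := by
    simp only [coeffPN]
    apply Tendsto.const_mul
    apply tendsto_finsetSum
    intro i _
    exact (h1 (j - i)).mul_const _
  have h3 : (j.factorial : ℝ) * ∑ i ∈ range (j + 1),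
        (1 / ((j - i).factorial : ℝ)) * (g.coeff i * h ^ i) =
      ∑ l ∈ Finset.range (g.natDegree + 1), (j.descFactorial l : ℝ) * h ^ l * g.coeff l := by
    have e1 : (j.factorial : ℝ) * ∑ i ∈ range (j + 1),
        (1 / ((j - i).factorial : ℝ)) * (g.coeff i * h ^ i) =
        ∑ l ∈ range (j + 1), (j.descFactorial l : ℝ) * h ^ l * g.coeff l := by
      rw [mul_sum]
      apply sum_congr rfl
      intro l hl
      rw [mem_range] at hl
      have h4 := Nat.factorial_mul_descFactorial (show l ≤ j by omega)
      have h5 : ((j - l).factorial : ℝ) * (j.descFactorial l : ℝ) = (j.factorial : ℝ) := by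
        exact_mod_cast h4
      have h6 : ((j - l).factorial : ℝ) ≠ 0 := by positivity
      rw [← h5]
      field_simp
    rw [e1]
    rcases le_total j g.natDegree with hj | hj
    · apply sum_subset (range_subset_range.mpr (by omega))
      intro l _ hl
      rw [mem_range, not_lt] at hl
      rw [Nat.descFactorial_of_lt (by omega)]
      simp
    · symm
      apply sum_subset (range_subset_range.mpr (by omega))
      intro l _ hl
      rw [mem_range, not_lt] at hl
      rw [coeff_eq_zero_of_natDegree_lt (by omega)]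
      simp
  rw [h3] at h2
  exact h2

theorem t : S_POLY := by
  intro n k g h hg hh hneg
  have h1 := LT_tendsto (l := atTop) (fun (N : ℕ) (j : ℕ) => (j.factorial : ℝ) * (PN g h N).coeff j)
    (fun j => ∑ l ∈ Finset.range (g.natDegree + 1), (j.descFactorial l : ℝ) * h ^ l * g.coeff l)
    (fun j => lim g h j) n k
  have h2 := (h1.eventually (Iio_mem_nhds hneg)).and (eventually_ge_atTop 1)
  obtain ⟨N, hN1, hN2⟩ := h2.exists
  exact ⟨PN g h N, neg g hg h hh N hN2, hN1⟩

end Pool.Agent.Y908.LG.POLY
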