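import Pool.Agent.Y246.LG.Stm

/-!
# From a simple zero to a negative value
-/

set_option autoImplicit false

namespace Pool.Agent.Y908.LG.SHIFT

open Polynomial Pool.Agent.Y246.LG Finset Filter Topology

theorem gap (S : Finset ℂ) (h : ∀ z ∈ S, z.re < 0) : ∃ ρ : ℝ, 0 < ρ ∧ ∀ z ∈ S, z.re < -ρ := by
  classical
  induction S using Finset.induction_on with
  | empty => exact ⟨1, one_pos, by simp⟩
  | insert a S _ ih =>
    obtain ⟨ρ, h0, h1⟩ := ih (fun z hz => h z (mem_insert_of_mem hz))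
    have ha := h a (mem_insert_self a S)
    refine ⟨min ρ (-a.re / 2), lt_min h0 (by linarith), ?_⟩
    intro z hz
    rcases mem_insert.mp hz with rfl | hz
    · have := min_le_right ρ (-z.re / 2)
      linarith
    · have := min_le_left ρ (-a.re / 2)
      have := h1 z hz
      linarith

theorem t : S_SHIFT := by
  classical
  intro n g hg h0 h1
  obtain ⟨F, hF⟩ : ∃ F, F = Lg^[n + 1] g := ⟨_, rfl⟩
  rw [← hF] at h0 h1
  obtain ⟨u, hu⟩ : X ∣ F := X_dvd_iff.2 h0
  have hc : u.coeff 0 ≠ 0 := by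
    rw [hu, coeff_X_mul] at h1
    exact h1
  -- the gap
  obtain ⟨ρ, hρ, hρ2⟩ := gap ((g.map (algebraMap ℝ ℂ)).roots.toFinset) (by
    intro z hz
    rw [Multiset.mem_toFinset] at hz
    have := (mem_roots'.mp hz).2
    rw [IsRoot.def, eval_map_algebraMap] at this
    exact (hg.2 z this).2)
  have hgap : ∀ z : ℂ, aeval z g = 0 → z.im = 0 ∧ z.re < -ρ := by
    intro z hz
    refine ⟨(hg.2 z hz).1, hρ2 z ?_⟩
    rw [Multiset.mem_toFinset, mem_roots', IsRoot.def, eval_map_algebraMap]
    exact ⟨(Polynomial.map_ne_zero_iff (algebraMap ℝ ℂ).injective).mpr hg.1, hz⟩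
  -- a small negative value
  have hcont : Tendsto (fun s : ℝ => u.eval s) (𝓝 0) (𝓝 (u.coeff 0)) := by
    have := u.continuous.tendsto 0
    rwa [← coeff_zero_eq_eval_zero] at this
  have hex : ∃ t0 : ℝ, |t0| < ρ / 4 ∧ F.eval t0 < 0 := by
    rcases lt_or_gt_of_ne hc with hneg | hpos
    · have h2 : ∀ᶠ s in 𝓝 (0:ℝ), u.eval s < 0 := hcont.eventually (Iio_mem_nhds hneg)
      obtain ⟨d, hd, hd2⟩ := Metric.eventually_nhds_iff.mp h2
      have hm : 0 < min d (ρ / 4) := lt_min hd (by linarith)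
      refine ⟨min d (ρ / 4) / 2, ?_, ?_⟩
      · rw [abs_of_pos (by linarith)]
        have := min_le_right d (ρ / 4)
        linarith
      · rw [hu, eval_mul, eval_X]
        apply mul_neg_of_pos_of_neg (by linarith)
        apply hd2
        rw [Real.dist_eq, sub_zero, abs_of_pos (by linarith)]
        have := min_le_left d (ρ / 4)
        linarith
    · have h2 : ∀ᶠ s in 𝓝 (0:ℝ), 0 < u.eval s := hcont.eventually (Ioi_mem_nhds hpos)
      obtain ⟨d, hd, hd2⟩ := Metric.eventually_nhds_iff.mp h2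
      have hm : 0 < min d (ρ / 4) := lt_min hd (by linarith)
      refine ⟨-(min d (ρ / 4) / 2), ?_, ?_⟩
      · rw [abs_neg, abs_of_pos (by linarith)]
        have := min_le_right d (ρ / 4)
        linarith
      · rw [hu, eval_mul, eval_X]
        apply mul_neg_of_neg_of_pos (by linarith)
        apply hd2
        rw [Real.dist_eq, sub_zero, abs_neg, abs_of_pos (by linarith)]
        have := min_le_left d (ρ / 4)
        linarith
  obtain ⟨t0, ht0, hneg⟩ := hex
  refine ⟨g.comp (X + C (t0 - ρ / 4)), ρ / 4, ⟨comp_X_add_C_ne_zero_iff.mpr hg.1, ?_⟩,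
    by linarith, ?_⟩
  · intro z hz
    rw [aeval_comp] at hz
    have e : (aeval z) (X + C (t0 - ρ / 4)) = z + ((t0 - ρ / 4 : ℝ) : ℂ) := by simp
    rw [e] at hz
    have h3 := hgap _ hz
    rw [Complex.add_im, Complex.ofReal_im, add_zero, Complex.add_re, Complex.ofReal_re] at h3
    refine ⟨h3.1, ?_⟩
    have := (abs_lt.mp ht0).1
    linarith [h3.2]
  · rw [Lg_iter_comp, ← hF, eval_comp]
    simpa using hneg

end Pool.Agent.Y908.LG.SHIFT
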