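import Pool.Agent.Y246.LG.Stm

/-!
# Computing with truncated polynomials whose coefficients are integer polynomials in a parameter
-/

set_option autoImplicit false

namespace Pool.Agent.Y908.LG

open Polynomial Pool.Agent.Y246.LG Finset

/-- sum of polynomials in `v` (lists of coefficients) -/
def padd : List ℤ → List ℤ → List ℤ
  | [], b => b
  | x :: a, [] => x :: a
  | x :: a, y :: b => (x + y) :: padd a b

/-- multiple -/
def psc (c : ℤ) : List ℤ → List ℤ
  | [] => []
  | x :: a => (c * x) :: psc c a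

/-- product -/
def pmul : List ℤ → List ℤ → List ℤ
  | [], _ => []
  | x :: a, b => padd (psc x b) (0 :: pmul a b)

/-- value -/
noncomputable def ev : List ℤ → ℝ → ℝ
  | [], _ => 0
  | x :: a, v => (x : ℝ) + v * ev a v

/-- finite sum -/
def sumL (f : ℕ → List ℤ) : ℕ → List ℤ
  | 0 => []
  | n + 1 => padd (sumL f n) (f n)

theorem ev_padd (a b : List ℤ) (v : ℝ) : ev (padd a b) v = ev a v + ev b v := by
  induction a generalizing b with
  | nil => simp [padd, ev]
  | cons x a ih =>
    cases b with
    | nil => simp [padd, ev]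
    | cons y b =>
      simp only [padd, ev, ih]
      push_cast
      ring

theorem ev_psc (c : ℤ) (a : List ℤ) (v : ℝ) : ev (psc c a) v = c * ev a v := by
  induction a with
  | nil => simp [psc, ev]
  | cons x a ih =>
    simp only [psc, ev, ih]
    push_cast
    ring

theorem ev_pmul (a b : List ℤ) (v : ℝ) : ev (pmul a b) v = ev a v * ev b v := by
  induction a with
  | nil => simp [pmul, ev]
  | cons x a ih =>
    simp only [pmul, ev_padd, ev_psc, ev, ih]
    push_cast
    ring

theorem ev_sumL (f : ℕ → List ℤ) (n : ℕ) (v : ℝ) :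
    ev (sumL f n) v = ∑ i ∈ range n, ev (f i) v := by
  induction n with
  | zero => simp [sumL, ev]
  | succ n ih => rw [sumL, ev_padd, ih, sum_range_succ]

/-- `L` lists the first coefficients of `f` -/
def Rep (L : List (List ℤ)) (v : ℝ) (f : ℝ[X]) : Prop :=
  ∀ m < L.length, f.coeff m = ev (L.getD m []) v

/-- terms of the coefficient of `Lg` -/
def tm (L : List (List ℤ)) (m i : ℕ) : List ℤ :=
  padd (psc (((i + 1) * (m - i + 1) : ℕ) : ℤ) (pmul (L.getD (i + 1) []) (L.getD (m - i + 1) [])))
    (psc (-(((m - i + 1) * (m - i + 2) : ℕ) : ℤ)) (pmul (L.getD i []) (L.getD (m - i + 2) [])))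

theorem lg_rep (v : ℝ) (f : ℝ[X]) (L L' : List (List ℤ)) (hL : Rep L v f)
    (hlen : L'.length + 2 ≤ L.length)
    (hc : ∀ m < L'.length, L'.getD m [] = sumL (tm L m) (m + 1)) : Rep L' v (Lg f) := by
  intro m hm
  rw [hc m hm, ev_sumL]
  unfold Lg
  rw [coeff_sub, coeff_mul, coeff_mul,
    Finset.Nat.sum_antidiagonal_eq_sum_range_succ
      (fun i j => (derivative f).coeff i * (derivative f).coeff j) m,
    Finset.Nat.sum_antidiagonal_eq_sum_range_succ
      (fun i j => f.coeff i * (derivative (derivative f)).coeff j) m, ← sum_sub_distrib]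
  apply sum_congr rfl
  intro i hi
  rw [mem_range] at hi
  simp only [coeff_derivative, tm, ev_padd, ev_psc, ev_pmul]
  rw [hL (i + 1) (by omega), hL (m - i + 1) (by omega), hL i (by omega),
    hL (m - i + 1 + 1) (by omega)]
  push_cast
  ring_nf

/-- multiplication with a linear factor -/
theorem lin_rep (v b : ℝ) (a : ℤ) (B : List ℤ) (hB : ev B v = b) (f : ℝ[X])
    (L L' : List (List ℤ)) (hL : Rep L v f) (hlen : L'.length ≤ L.length)
    (h0 : L'.getD 0 [] = pmul B (L.getD 0 []))
    (hc : ∀ m < L'.length - 1, L'.getD (m + 1) [] =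
      padd (pmul B (L.getD (m + 1) [])) (psc a (L.getD m []))) :
    Rep L' v ((C (a : ℝ) * X + C b) * f) := by
  intro m hm
  rw [add_mul, coeff_add, coeff_C_mul, mul_assoc, coeff_C_mul]
  cases m with
  | zero =>
    rw [h0, ev_pmul, hB, ← hL 0 (by omega), coeff_X_mul_zero]
    ring
  | succ m =>
    rw [hc m (by omega), ev_padd, ev_pmul, ev_psc, hB, ← hL (m + 1) (by omega),
      ← hL m (by omega), coeff_X_mul]
    ring

theorem pow_rep (v : ℝ) (N : ℕ) (L : List (List ℤ))
    (hc : ∀ m < L.length, L.getD m [] = [(N.choose m : ℤ)]) :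
    Rep L v ((X + 1) ^ N) := by
  intro m hm
  rw [hc m hm, coeff_X_add_one_pow]
  simp [ev]

/-- all coefficients positive -/
def posL : List ℤ → Bool
  | [] => true
  | x :: a => decide (0 < x) && posL a

theorem ev_nonneg (a : List ℤ) (h : posL a = true) (v : ℝ) (hv : 0 ≤ v) : 0 ≤ ev a v := by
  induction a with
  | nil => simp [ev]
  | cons x a ih =>
    simp only [posL, Bool.and_eq_true, decide_eq_true_eq] at h
    have h1 : (0 : ℝ) < x := by exact_mod_cast h.1
    have h2 := mul_nonneg hv (ih h.2)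
    simp only [ev]
    linarith

theorem ev_pos (a : List ℤ) (h : posL a = true) (hne : a ≠ []) (v : ℝ) (hv : 0 ≤ v) :
    0 < ev a v := by
  cases a with
  | nil => exact absurd rfl hne
  | cons x a =>
    simp only [posL, Bool.and_eq_true, decide_eq_true_eq] at h
    have h1 : (0 : ℝ) < x := by exact_mod_cast h.1
    have h2 := mul_nonneg hv (ev_nonneg a h.2 v hv)
    simp only [ev]
    linarith

theorem ne_of_rep (v : ℝ) (hv : 0 ≤ v) (f : ℝ[X]) (L : List (List ℤ)) (hL : Rep L v f)
    (h : decide (0 < L.length) && posL (L.getD 0 []) && !(L.getD 0 []).isEmpty) :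
    f.coeff 0 ≠ 0 := by
  simp only [Bool.and_eq_true, decide_eq_true_eq, Bool.not_eq_true', List.isEmpty_eq_false_iff] at h
  rw [hL 0 h.1.1]
  exact (ev_pos _ h.1.2 h.2 v hv).ne'

end Pool.Agent.Y908.LG
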