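import Pool.Agent.Y908.LG.Lim

/-!
# Multiplication with an entire function
-/

set_option autoImplicit false

namespace Pool.Agent.Y908.LG.PSI

open Polynomial Pool.Agent.Y246.LG Finset Filter Topology

theorem iter_aeval (Q : ℝ[X]) (j : ℕ) :
    iteratedDeriv j (fun z : ℂ => aeval z Q) = fun z => aeval z (derivative^[j] Q) := by
  induction j with
  | zero => simp [iteratedDeriv_zero]
  | succ j ih =>
    rw [iteratedDeriv_succ, ih]
    funext z
    rw [Polynomial.deriv_aeval, Function.iterate_succ_apply']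

theorem iter_zero (Q : ℝ[X]) (j : ℕ) :
    iteratedDeriv j (fun z : ℂ => aeval z Q) 0 = (((j.factorial : ℝ) * Q.coeff j : ℝ) : ℂ) := by
  rw [iter_aeval]
  have h1 := Polynomial.coeff_zero_eq_aeval_zero' (A := ℂ) (derivative^[j] Q)
  have h2 := Polynomial.coeff_iterate_derivative (k := j) Q 0
  rw [Nat.zero_add, Nat.descFactorial_self, nsmul_eq_mul] at h2
  show (aeval (0:ℂ)) (derivative^[j] Q) = _
  rw [← h1, h2]
  simp

theorem formula (ψ : ℂ → ℂ) (P : ℝ[X]) (hψ : Differentiable ℂ ψ) (hr : RealTaylor ψ) (R : ℝ)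
    (hR : 0 < R) (j : ℕ) :
    (iteratedDeriv j (fun z : ℂ => ψ z * aeval z (P.comp (C R * X))) 0).re =
      1 * R ^ j * ∑ i ∈ range (j + 1), ((j.choose i : ℝ) * (iteratedDeriv i ψ 0).re *
        (((j - i).factorial : ℝ) * P.coeff (j - i))) * (1 / R) ^ i := by
  have hc1 : ContDiffAt ℂ j ψ 0 := (hψ.contDiff).contDiffAt
  have hd2 : Differentiable ℂ (fun z : ℂ => aeval z (P.comp (C R * X))) :=
    fun z => Polynomial.differentiableAt_aeval _
  have hc2 : ContDiffAt ℂ j (fun z : ℂ => aeval z (P.comp (C R * X))) 0 := hd2.contDiff.contDiffAt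
  have h1 := iteratedDeriv_fun_mul hc1 hc2
  rw [h1, Complex.re_sum, one_mul, mul_sum]
  apply sum_congr rfl
  intro i hi
  rw [mem_range] at hi
  have hre : iteratedDeriv i ψ 0 = (((iteratedDeriv i ψ 0).re : ℝ) : ℂ) := by
    apply Complex.ext
    · simp
    · rw [hr i]; simp
  rw [iter_zero, comp_C_mul_X_coeff, hre]
  have e : ((j.choose i : ℂ) * (((iteratedDeriv i ψ 0).re : ℝ) : ℂ) *
      ((((j - i).factorial : ℝ) * (P.coeff (j - i) * R ^ (j - i)) : ℝ) : ℂ)) =
      (((j.choose i : ℝ) * (iteratedDeriv i ψ 0).re *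
        (((j - i).factorial : ℝ) * (P.coeff (j - i) * R ^ (j - i))) : ℝ) : ℂ) := by
    push_cast; ring
  rw [e, Complex.ofReal_re, Complex.ofReal_re]
  have e2 : R ^ j * (1 / R) ^ i = R ^ (j - i) := by
    have : R ^ j = R ^ (j - i) * R ^ i := by rw [← pow_add]; congr 1; omega
    rw [this, mul_assoc, ← mul_pow, mul_one_div_cancel hR.ne', one_pow, mul_one]
  rw [← e2]
  ring

theorem t : S_PSI := by
  intro n k ψ P hk hψ hr h0 hneg
  obtain ⟨a, ha⟩ : ∃ a : ℝ, a = (ψ 0).re := ⟨_, rfl⟩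
  have ha0 : a ≠ 0 := by
    intro h
    apply h0
    have h1 := hr 0
    rw [iteratedDeriv_zero] at h1
    apply Complex.ext
    · rw [← ha, h]; simp
    · rw [h1]; simp
  have hlim : ∀ j : ℕ, Tendsto (fun R : ℝ => ∑ i ∈ range (j + 1),
      ((j.choose i : ℝ) * (iteratedDeriv i ψ 0).re *
        (((j - i).factorial : ℝ) * P.coeff (j - i))) * (1 / R) ^ i) atTop
      (𝓝 (a * 1 ^ j * ((j.factorial : ℝ) * P.coeff j))) := by
    intro j
    have h1 : ∀ i ∈ range (j + 1), Tendsto (fun R : ℝ => ((j.choose i : ℝ) *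
        (iteratedDeriv i ψ 0).re * (((j - i).factorial : ℝ) * P.coeff (j - i))) * (1 / R) ^ i) atTop
        (𝓝 (if i = 0 then a * 1 ^ j * ((j.factorial : ℝ) * P.coeff j) else 0)) := by
      intro i _
      rcases Nat.eq_zero_or_pos i with rfl | hi
      · simp [ha, iteratedDeriv_zero]
      · rw [if_neg (by omega)]
        have h2 : Tendsto (fun R : ℝ => (1 / R) ^ i) atTop (𝓝 0) := by
          have h3 : Tendsto (fun R : ℝ => 1 / R) atTop (𝓝 0) := by
            simpa using tendsto_inv_atTop_zero (𝕜 := ℝ)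
          have := h3.pow i
          rwa [zero_pow (by omega)] at this
        have := h2.const_mul ((j.choose i : ℝ) *
          (iteratedDeriv i ψ 0).re * (((j - i).factorial : ℝ) * P.coeff (j - i)))
        rwa [mul_zero] at this
    have h4 := tendsto_finsetSum (range (j + 1)) h1
    rw [Finset.sum_ite_eq' (range (j + 1)) 0, if_pos (by simp)] at h4
    exact h4
  have h1 := LT_tendsto (l := atTop) (fun (R : ℝ) (j : ℕ) => ∑ i ∈ range (j + 1),
      ((j.choose i : ℝ) * (iteratedDeriv i ψ 0).re *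
        (((j - i).factorial : ℝ) * P.coeff (j - i))) * (1 / R) ^ i) _ hlim n k
  rw [LT_hom a 1 (fun j => (j.factorial : ℝ) * P.coeff j) n k hk] at h1
  have hpos : 0 < a ^ (2 ^ (n + 1)) := by
    have : Even (2 ^ (n + 1)) := by
      rw [pow_succ]
      exact even_two.mul_left _
    exact this.pow_pos ha0
  have hneg' : a ^ (2 ^ (n + 1)) * 1 ^ (k * 2 ^ (n + 1)) *
      Pool.Agent.Y246.LG.LT n (fun j => (j.factorial : ℝ) * P.coeff j) k < 0 := by
    rw [one_pow, mul_one]
    exact mul_neg_of_pos_of_neg hpos hneg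
  have h2 := (h1.eventually (Iio_mem_nhds hneg')).and (eventually_gt_atTop (0:ℝ))
  obtain ⟨R, hR1, hR2⟩ := h2.exists
  refine ⟨R, hR2, ?_⟩
  have e : (fun j => (iteratedDeriv j (fun z : ℂ => ψ z * aeval z (P.comp (C R * X))) 0).re) =
      fun j => 1 * R ^ j * ∑ i ∈ range (j + 1), ((j.choose i : ℝ) * (iteratedDeriv i ψ 0).re *
        (((j - i).factorial : ℝ) * P.coeff (j - i))) * (1 / R) ^ i := by
    funext j
    exact formula ψ P hψ hr R hR2 j
  rw [e, LT_hom 1 R _ n k hk, one_pow, one_mul]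
  exact mul_neg_of_pos_of_neg (by positivity) hR1

end Pool.Agent.Y908.LG.PSI
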